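import Pool.Agent.helper13.AA.S4
import Pool.Agent.helper51.AA.S5
import Pool.Agent.helper33.AA.C1
import Pool.Agent.helper25.AA.K0
import Pool.Agent.helper43.AA.H2
import Pool.Agent.helper91.AA.H1
import Pool.Agent.helper26.AA.N2
import Pool.Agent.helper51.AA.P1

/-! # Project AA, module K1: off-diagonal terms -/

namespace Pool.Agent.helper71.AA

open Finset

theorem K1_growth (W A ε P₀ : ℝ) (hW : 0 < W) (hA : 0 < A) (hε : 0 < ε) : ∃ X₀ : ℝ, 1 ≤ X₀ ∧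
    ∀ X : ℝ, X₀ ≤ X → X ^ (0.998 : ℝ) ≤ ε / 2 * (X / W) * (A * Real.log X) ^ 2 ∧
      P₀ ≤ Real.log X * Real.log (Real.log X) ∧ 1 ≤ Real.log X := by
  have t1 : Filter.Tendsto (fun X : ℝ => X ^ (0.002 : ℝ)) Filter.atTop Filter.atTop :=
    tendsto_rpow_atTop (by norm_num)
  have t2 : Filter.Tendsto (fun X : ℝ => Real.log X) Filter.atTop Filter.atTop :=
    Real.tendsto_log_atTop
  have t3 : Filter.Tendsto (fun X : ℝ => Real.log (Real.log X)) Filter.atTop Filter.atTop :=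
    Real.tendsto_log_atTop.comp t2
  have e1 := t1.eventually_ge_atTop (2 * W / (ε * A ^ 2))
  have e2 := t2.eventually_ge_atTop (max 1 P₀)
  have e3 := t3.eventually_ge_atTop 1
  obtain ⟨X₁, hX₁⟩ := Filter.eventually_atTop.1 (e1.and (e2.and e3))
  refine ⟨max 1 X₁, le_max_left _ _, ?_⟩
  intro X hX
  have hX1 : 1 ≤ X := (le_max_left _ _).trans hX
  obtain ⟨h1, h2, h3⟩ := hX₁ X ((le_max_right _ _).trans hX)
  have hX0 : 0 < X := by linarith
  have h21 : 1 ≤ Real.log X := (le_max_left _ _).trans h2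
  have h22 : P₀ ≤ Real.log X := (le_max_right _ _).trans h2
  refine ⟨?_, ?_, h21⟩
  · have hsplit : X = X ^ (0.998 : ℝ) * X ^ (0.002 : ℝ) := by
      rw [← Real.rpow_add hX0]
      norm_num
    have hp : 0 ≤ X ^ (0.998 : ℝ) := (Real.rpow_pos_of_pos hX0 _).le
    have hA2 : 0 < A ^ 2 := by positivity
    have hlog2 : 1 ≤ Real.log X ^ 2 := by nlinarith
    have h4 : 1 ≤ ε / 2 * (X ^ (0.002 : ℝ) / W) * A ^ 2 := by
      rw [div_le_iff₀ (by positivity)] at h1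
      have : ε / 2 * (X ^ (0.002 : ℝ) / W) * A ^ 2 = (X ^ (0.002 : ℝ) * (ε * A ^ 2)) / (2 * W) := by
        field_simp
      rw [this, le_div_iff₀ (by positivity)]
      linarith
    calc X ^ (0.998 : ℝ) = X ^ (0.998 : ℝ) * 1 * 1 := by ring
      _ ≤ X ^ (0.998 : ℝ) * (ε / 2 * (X ^ (0.002 : ℝ) / W) * A ^ 2) * Real.log X ^ 2 := by
          apply mul_le_mul (mul_le_mul_of_nonneg_left h4 hp) hlog2 zero_le_one
          apply mul_nonneg hp
          exact le_trans zero_le_one h4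
      _ = ε / 2 * ((X ^ (0.998 : ℝ) * X ^ (0.002 : ℝ)) / W) * (A * Real.log X) ^ 2 := by ring
      _ = ε / 2 * (X / W) * (A * Real.log X) ^ 2 := by rw [← hsplit]
  · nlinarith

theorem K1_coprime (w l : ℕ) (hl : l.Prime) (hw : w < l) : l.Coprime (primorial w) := by
  rw [Nat.Prime.coprime_iff_not_dvd hl]
  intro h
  unfold primorial at h
  rw [Prime.dvd_finsetProd_iff hl.prime] at h
  obtain ⟨q, hq, h2⟩ := h
  rw [Finset.mem_filter, Finset.mem_range] at hq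
  have := (Nat.prime_dvd_prime_iff_eq hl hq.2).1 h2
  omega

theorem K1_Ff_nonneg (Q : Finset ℕ) (R c : ℝ) (v : ℕ → ℝ) (hc : 0 ≤ c) (hv : ∀ l, 0 ≤ v l)
    (A : Finset ℕ) : 0 ≤ Ff Q R c v A := by
  unfold Ff Vf
  have := Finset.sum_nonneg (fun l (_ : l ∈ A) => hv l)
  positivity

theorem K1_ph_pos (K : Finset ℕ) (hK : ∀ l ∈ K, 2 ≤ l) : 0 < ph K := by
  unfold ph
  apply Finset.prod_pos
  intro l hl
  have : (2 : ℝ) ≤ l := by exact_mod_cast hK l hl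
  linarith

theorem off_diag_of
    (Gs_le : ∀ (w : ℕ) (_ : 10 ≤ w), ∃ X₀ : ℝ, ∀ X : ℝ, X₀ ≤ X → ∀ (Z : ℕ) (Q : Finset ℕ),
      Q ⊆ Qs w Z → ∀ R : ℝ, R ≤ X ^ (0.2 : ℝ) → Gs Q R ≤ Aw w * Real.log X)
    (pair_avg : ∃ C : ℝ, 0 < C ∧ ∀ w : ℕ, 200 ≤ w → ∃ P₀ : ℝ, ∀ P : ℝ, P₀ ≤ P →
      ∀ b : ℕ, b.Coprime (primorial w) → ∀ Q : Finset ℕ, (∀ l ∈ Q, l.Prime ∧ w < l) →
        ∑ p ∈ Ps (primorial w) b P, ∑ q ∈ (Ps (primorial w) b P).erase p, (Cf Q p q - 1) ≤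
          C / w * ((Ps (primorial w) b P).card : ℝ) ^ 2)
    (δ ε : ℝ) (hδ : 0 < δ) (hε : 0 < ε) : ∃ w₀ : ℕ, ∀ w : ℕ, w₀ ≤ w →
    ∃ C X₀ : ℝ, 0 < C ∧ ∀ X P : ℝ, X₀ ≤ X → Rg C X P → ∀ a₀ b : ℕ, b.Coprime (primorial w) →
    ∀ (R c : ℝ) (v : ℕ → ℝ), Adm X δ R c v →
      ∑ p ∈ Ps (primorial w) b P, ∑ q ∈ (Ps (primorial w) b P).erase p,
        ∑ a ∈ As (primorial w) a₀ X, fw w X R c v p a * fw w X R c v q a ≤
      X / (primorial w : ℝ) * ((∑ p ∈ Ps (primorial w) b P, mw w X R c v p) ^ 2 +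
        ε * (((Ps (primorial w) b P).card : ℝ) * (Aw w * Real.log X)) ^ 2) := by
  obtain ⟨B, XB, hB, hsv⟩ := sv_le δ hδ
  obtain ⟨C₁, hC₁, hpa⟩ := pair_avg
  obtain ⟨Xm, hmass⟩ := mass_le
  set T : ℝ := 3 + 4 * B with hT
  have hT0 : 0 < T := by positivity
  obtain ⟨w₁, hw₁⟩ := exists_nat_ge (2 * T ^ 2 * C₁ / ε)
  refine ⟨max 200 w₁, ?_⟩
  intro w hw
  have hw200 : 200 ≤ w := (le_max_left _ _).trans hw
  have hww : w₁ ≤ w := (le_max_right _ _).trans hw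
  have hwR : (0 : ℝ) < w := by
    have : 0 < w := by omega
    exact_mod_cast this
  have hwε : T ^ 2 * (C₁ / w) ≤ ε / 2 := by
    have h1 : 2 * T ^ 2 * C₁ / ε ≤ w := hw₁.trans (by exact_mod_cast hww)
    rw [div_le_iff₀ hε] at h1
    rw [← mul_div_assoc, div_le_iff₀ hwR]
    linarith
  obtain ⟨P₀, hP₀⟩ := hpa w hw200
  obtain ⟨Xg, hGs⟩ := Gs_le w (by omega)
  have hA : 0 < Aw w := K0_Aw_pos w
  have hWn : 0 < primorial w := primorial_pos w
  have hW : (0 : ℝ) < (primorial w : ℝ) := by exact_mod_cast hWn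
  obtain ⟨Xe, hXe1, hXe⟩ := K1_growth (primorial w : ℝ) (Aw w) ε P₀ hW hA hε
  refine ⟨1, max (max XB Xm) (max Xg Xe), one_pos, ?_⟩
  intro X P hX hRg a₀ b hb R c v hadm
  have hXB : XB ≤ X := ((le_max_left _ _).trans (le_max_left _ _)).trans hX
  have hXm : Xm ≤ X := ((le_max_right _ _).trans (le_max_left _ _)).trans hX
  have hXg : Xg ≤ X := ((le_max_left _ _).trans (le_max_right _ _)).trans hX
  have hXee : Xe ≤ X := ((le_max_right _ _).trans (le_max_right _ _)).trans hX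
  obtain ⟨hg1, hg2, hg3⟩ := hXe X hXee
  have hX1 : 1 ≤ X := hXe1.trans hXee
  have hX0 : 0 < X := by linarith
  have hPP : P₀ ≤ P := by
    have := hRg.1
    linarith
  have hadm' := hadm
  obtain ⟨hR1, hR2, hc0, hc2, hv, hv2⟩ := hadm
  have hv0 : ∀ l, 0 ≤ v l := fun l => (hv l).1
  set Λ : ℝ := Aw w * Real.log X with hΛ
  have hΛ0 : 0 < Λ := by positivity
  set Q : Finset ℕ := QX w X with hQdef
  have hQs : Q ⊆ Qs w ⌊X ^ (0.43 : ℝ)⌋₊ := by
    rw [hQdef]; unfold QX; exact subset_rfl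
  have hQp : ∀ l ∈ Q, l.Prime ∧ w < l := by
    intro l hl
    have h := hQs hl
    unfold Qs at h
    rw [Finset.mem_filter, Finset.mem_Ioc] at h
    exact ⟨h.2, h.1.1⟩
  have hQc : ∀ l ∈ Q, l.Prime ∧ l.Coprime (primorial w) :=
    fun l hl => ⟨(hQp l hl).1, K1_coprime w l (hQp l hl).1 (hQp l hl).2⟩
  have hQ2 : ∀ l ∈ Q, 2 ≤ l := fun l hl => (hQp l hl).1.two_le
  have hQe : ∀ p, Q.erase p ⊆ Qs w ⌊X ^ (0.43 : ℝ)⌋₊ :=
    fun p => (Finset.erase_subset p Q).trans hQs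
  have hQe2 : ∀ p, ∀ l ∈ Q.erase p, 2 ≤ l := fun p l hl => hQ2 l (Finset.mem_of_mem_erase hl)
  choose ξ hξ hξm using fun p : ℕ => exists_Rep w ⌊X ^ (0.43 : ℝ)⌋₊ (by omega) (Q.erase p)
    (hQe p) R c hR1 hc0 v hv0
  have hmassp : ∀ p, ∑ D ∈ (Q.erase p).powerset, |ξ p D| ≤ X ^ (0.499 : ℝ) :=
    fun p => (hξm p).trans (hmass X hXm δ R c v hadm' (Q.erase p))
  have hm0 : ∀ p, 0 ≤ mw w X R c v p := by
    intro p
    unfold mw
    exact Ex_nonneg _ (hQe2 p) _ (fun A _ => K1_Ff_nonneg _ R c v hc0 hv0 A)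
  have hTh0 : ∀ p, Th (Q.erase p) (ξ p) ∅ = mw w X R c v p := by
    intro p
    rw [Th_empty (Q.erase p) (hQe2 p) _ (ξ p) (hξ p)]
    rfl
  have hThK : ∀ p, ∀ K ⊆ Q.erase p, |Th (Q.erase p) (ξ p) K| ≤ T * Λ * (9 ^ K.card / ph K) := by
    intro p K hK
    refine (Th_Ff (Q.erase p) (hQe2 p) R c hc0 v hv (ξ p) (hξ p) K hK).trans ?_
    have hph : 0 < ph K := K1_ph_pos K (fun l hl => hQe2 p l (hK hl))
    apply mul_le_mul_of_nonneg_right _ (by positivity)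
    have hs := hsv X hXB R c v hadm' w _ (Q.erase p) (hQe p)
    have hs0 : 0 ≤ ∑ l ∈ Q.erase p, v l / l :=
      Finset.sum_nonneg (fun l _ => div_nonneg (hv0 l) (Nat.cast_nonneg l))
    have hG := hGs X hXg _ (Q.erase p) (hQe p) R hR2
    have hG0 : 0 ≤ Gs (Q.erase p) R := by
      unfold Gs
      apply Finset.sum_nonneg
      intro K' hK'
      unfold Sub at hK'
      rw [Finset.mem_filter, Finset.mem_powerset] at hK'
      have := K1_ph_pos K' (fun l hl => hQe2 p l (hK'.1 hl))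
      positivity
    exact mul_le_mul (by rw [hT]; linarith) hG hG0 hT0.le
  set S : Finset ℕ := Ps (primorial w) b P with hS
  have hSp : ∀ p ∈ S, p.Prime := by
    intro p hp
    rw [hS] at hp
    unfold Ps at hp
    rw [Finset.mem_filter] at hp
    exact hp.2.1
  have hpair : ∀ p ∈ S, ∀ q ∈ S.erase p,
      ∑ a ∈ As (primorial w) a₀ X, fw w X R c v p a * fw w X R c v q a ≤
        X / (primorial w : ℝ) * (mw w X R c v p * mw w X R c v q +
          T * Λ * (T * Λ) * (Cf Q p q - 1)) + X ^ (0.998 : ℝ) := by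
    intro p hp q hq
    have hpp := hSp p hp
    have hqq := hSp q (Finset.mem_of_mem_erase hq)
    have h1 := pair_sum (primorial w) a₀ hWn Q hQc p q hpp hqq (Ff (Q.erase p) R c v)
      (Ff (Q.erase q) R c v) (ξ p) (ξ q) (hξ p) (hξ q) X hX0.le
    have h2 := corr_le Q hQ2 p q (ξ p) (ξ q) (T * Λ) (T * Λ) (by positivity) (by positivity)
      (hThK p) (hThK q)
    rw [hTh0 p, hTh0 q] at h2
    have h3 := (abs_le.1 h1).2
    have h4 : (∑ D ∈ (Q.erase p).powerset, |ξ p D|) * ∑ E ∈ (Q.erase q).powerset, |ξ q E| ≤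
        X ^ (0.998 : ℝ) := by
      calc (∑ D ∈ (Q.erase p).powerset, |ξ p D|) * ∑ E ∈ (Q.erase q).powerset, |ξ q E|
          ≤ X ^ (0.499 : ℝ) * X ^ (0.499 : ℝ) :=
            mul_le_mul (hmassp p) (hmassp q)
              (Finset.sum_nonneg (fun _ _ => abs_nonneg _)) (Real.rpow_nonneg hX0.le _)
        _ = X ^ (0.998 : ℝ) := by
            rw [← Real.rpow_add hX0]; norm_num
    have h5 : X / (primorial w : ℝ) * ∑ D ∈ (Q.erase p).powerset, ∑ E ∈ (Q.erase q).powerset,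
        ξ p D * ξ q E * rho (Nn Q p q) D E ≤
        X / (primorial w : ℝ) * (mw w X R c v p * mw w X R c v q +
          T * Λ * (T * Λ) * (Cf Q p q - 1)) :=
      mul_le_mul_of_nonneg_left h2 (by positivity)
    have h6 : ∑ a ∈ As (primorial w) a₀ X, fw w X R c v p a * fw w X R c v q a =
        ∑ a ∈ As (primorial w) a₀ X, Ff (Q.erase p) R c v (At Q p a) *
          Ff (Q.erase q) R c v (At Q q a) := rfl
    rw [h6]
    linarith
  have hN : (0 : ℝ) ≤ (S.card : ℝ) := Nat.cast_nonneg _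
  have hsum : ∑ p ∈ S, ∑ q ∈ S.erase p,
      ∑ a ∈ As (primorial w) a₀ X, fw w X R c v p a * fw w X R c v q a ≤
      ∑ p ∈ S, ∑ q ∈ S.erase p, (X / (primorial w : ℝ) * (mw w X R c v p * mw w X R c v q +
          T * Λ * (T * Λ) * (Cf Q p q - 1)) + X ^ (0.998 : ℝ)) :=
    Finset.sum_le_sum (fun p hp => Finset.sum_le_sum (fun q hq => hpair p hp q hq))
  refine hsum.trans ?_
  have hexp : ∑ p ∈ S, ∑ q ∈ S.erase p, (X / (primorial w : ℝ) *
        (mw w X R c v p * mw w X R c v q +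
          T * Λ * (T * Λ) * (Cf Q p q - 1)) + X ^ (0.998 : ℝ)) =
      X / (primorial w : ℝ) * (∑ p ∈ S, ∑ q ∈ S.erase p, mw w X R c v p * mw w X R c v q +
        T * Λ * (T * Λ) * ∑ p ∈ S, ∑ q ∈ S.erase p, (Cf Q p q - 1)) +
      X ^ (0.998 : ℝ) * ∑ p ∈ S, ((S.erase p).card : ℝ) := by
    simp only [Finset.sum_add_distrib, Finset.mul_sum, mul_add, Finset.sum_const, nsmul_eq_mul]
    congr 1
    apply Finset.sum_congr rfl
    intro p _
    ring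
  rw [hexp]
  have hmm : ∑ p ∈ S, ∑ q ∈ S.erase p, mw w X R c v p * mw w X R c v q ≤
      (∑ p ∈ S, mw w X R c v p) ^ 2 := by
    rw [pow_two, Finset.sum_mul]
    apply Finset.sum_le_sum
    intro p _
    rw [← Finset.mul_sum]
    apply mul_le_mul_of_nonneg_left _ (hm0 p)
    exact Finset.sum_le_sum_of_subset_of_nonneg (Finset.erase_subset p S) (fun q _ _ => hm0 q)
  have hcf := hP₀ P hPP b hb Q hQp
  have hcard : ∑ p ∈ S, ((S.erase p).card : ℝ) ≤ (S.card : ℝ) ^ 2 := by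
    calc ∑ p ∈ S, ((S.erase p).card : ℝ) ≤ ∑ p ∈ S, (S.card : ℝ) := by
          apply Finset.sum_le_sum
          intro p _
          exact_mod_cast Finset.card_le_card (Finset.erase_subset p S)
      _ = (S.card : ℝ) ^ 2 := by rw [Finset.sum_const, nsmul_eq_mul, pow_two]
  have h7 : T * Λ * (T * Λ) * ∑ p ∈ S, ∑ q ∈ S.erase p, (Cf Q p q - 1) ≤
      ε / 2 * ((S.card : ℝ) * Λ) ^ 2 := by
    calc T * Λ * (T * Λ) * ∑ p ∈ S, ∑ q ∈ S.erase p, (Cf Q p q - 1)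
        ≤ T * Λ * (T * Λ) * (C₁ / w * (S.card : ℝ) ^ 2) :=
          mul_le_mul_of_nonneg_left hcf (by positivity)
      _ = T ^ 2 * (C₁ / w) * ((S.card : ℝ) * Λ) ^ 2 := by ring
      _ ≤ ε / 2 * ((S.card : ℝ) * Λ) ^ 2 := mul_le_mul_of_nonneg_right hwε (by positivity)
  have h8 : X ^ (0.998 : ℝ) * ∑ p ∈ S, ((S.erase p).card : ℝ) ≤
      X / (primorial w : ℝ) * (ε / 2 * ((S.card : ℝ) * Λ) ^ 2) := by
    calc X ^ (0.998 : ℝ) * ∑ p ∈ S, ((S.erase p).card : ℝ)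
        ≤ (ε / 2 * (X / (primorial w : ℝ)) * (Aw w * Real.log X) ^ 2) * (S.card : ℝ) ^ 2 := by
          apply mul_le_mul hg1 hcard (Finset.sum_nonneg (fun _ _ => Nat.cast_nonneg _))
          positivity
      _ = X / (primorial w : ℝ) * (ε / 2 * ((S.card : ℝ) * Λ) ^ 2) := by rw [hΛ]; ring
  have h9 : X / (primorial w : ℝ) * (∑ p ∈ S, ∑ q ∈ S.erase p,
        mw w X R c v p * mw w X R c v q +
        T * Λ * (T * Λ) * ∑ p ∈ S, ∑ q ∈ S.erase p, (Cf Q p q - 1)) ≤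
      X / (primorial w : ℝ) * ((∑ p ∈ S, mw w X R c v p) ^ 2 +
        ε / 2 * ((S.card : ℝ) * Λ) ^ 2) :=
    mul_le_mul_of_nonneg_left (add_le_add hmm h7) (by positivity)
  calc _ ≤ X / (primorial w : ℝ) * ((∑ p ∈ S, mw w X R c v p) ^ 2 +
        ε / 2 * ((S.card : ℝ) * Λ) ^ 2) +
        X / (primorial w : ℝ) * (ε / 2 * ((S.card : ℝ) * Λ) ^ 2) := add_le_add h9 h8
    _ = _ := by ring

/-- off-diagonal terms -/
theorem off_diag (δ ε : ℝ) (hδ : 0 < δ) (hε : 0 < ε) : ∃ w₀ : ℕ, ∀ w : ℕ, w₀ ≤ w →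
    ∃ C X₀ : ℝ, 0 < C ∧ ∀ X P : ℝ, X₀ ≤ X → Rg C X P → ∀ a₀ b : ℕ, b.Coprime (primorial w) →
    ∀ (R c : ℝ) (v : ℕ → ℝ), Adm X δ R c v →
      ∑ p ∈ Ps (primorial w) b P, ∑ q ∈ (Ps (primorial w) b P).erase p,
        ∑ a ∈ As (primorial w) a₀ X, fw w X R c v p a * fw w X R c v q a ≤
      X / (primorial w : ℝ) * ((∑ p ∈ Ps (primorial w) b P, mw w X R c v p) ^ 2 +
        ε * (((Ps (primorial w) b P).card : ℝ) * (Aw w * Real.log X)) ^ 2) :=
  off_diag_of (fun w hw => Gs_le_of (fun w hw => Gs_upper w hw) w hw)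
    (pair_avg_of (Hd_avg_of Ps_bt Ps_lower) Cf_le) δ ε hδ hε

end Pool.Agent.helper71.AA
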